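import Mathlib
import Pool.Agent.Helper58_MOO.Stmts

/-!
Module AEM of the MOO project: a two-element basis for the Aronszajn lines.
-/

open Cardinal
open Pool.Agent.Helper69_LOTS

namespace Pool.Agent.MOO.H69

open Pool.Agent.MOO Node

/-- The lexicographic order on values agrees with `Lx` on incomparable nodes. -/
theorem toLex_lt_of_lx {s t : Node} (h : Lx s t) :
    (toLex s.val : Lex (Om → Bool)) < toLex t.val := by
  obtain ⟨w, hw, h1⟩ := h
  refine ⟨w.ht, fun j hj => ?_, ?_⟩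
  · change s.val j = t.val j
    rw [← hw.1.2 j hj, hw.2.1.2 j hj]
  · change s.val w.ht < t.val w.ht
    rw [h1, hw.val_true h1]
    decide

theorem lx_of_toLex_lt {s t : Node} (h : Inc s t)
    (hst : (toLex s.val : Lex (Om → Bool)) < toLex t.val) : Lx s t := by
  rcases h.lx_or with h1 | h1
  · exact h1
  · exact absurd (toLex_lt_of_lx h1) (not_lt.2 hst.le)

/-- AEM. -/
theorem aem (hTre : TreStmt) (hAnt : AntStmt) (hMlm : MlmStmt) (hXst : XstStmt)
    (hPhi : PhiStmt) (hPsi : PsiStmt) (hAln : AlnStmt) : AemStmt := by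
  classical
  intro pfa
  obtain ⟨T, hT⟩ := hTre
  obtain ⟨Z, hZT, hZc, hZ⟩ := hAnt pfa T hT.toAT
  let A : Type := {v : Lex (Om → Bool) // ∃ z ∈ Z, v = toLex z.val}
  have hch : ∀ a : A, ∃ z ∈ Z, a.1 = toLex z.val := fun a => a.2
  choose z hz hza using hch
  have hzlt : ∀ a b : A, a < b → Lx (z a) (z b) := by
    intro a b hab
    have h1 : a.1 < b.1 := hab
    rw [hza a, hza b] at h1
    refine lx_of_toLex_lt (hZ _ (hz a) _ (hz b) (fun h => ?_)) h1
    rw [h] at h1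
    exact lt_irrefl _ h1
  refine ⟨A, inferInstance, ?_, ?_⟩
  · rw [← not_countable_iff]
    intro hc
    apply hZc
    have h1 : Function.Injective (fun x : Z => (⟨toLex x.1.val, x.1, x.2, rfl⟩ : A)) := by
      intro x y hxy
      by_contra hne
      have h2 : toLex x.1.val = toLex y.1.val := congrArg (fun a : A => a.1) hxy
      have h3 : Inc x.1 y.1 := hZ _ x.2 _ y.2 (fun h => hne (Subtype.ext h))
      rcases h3.lx_or with h4 | h4
      · exact absurd h2 (toLex_lt_of_lx h4).ne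
      · exact absurd h2 (toLex_lt_of_lx h4).ne'
    exact Set.countable_coe_iff.1 h1.countable
  · intro L _ hL
    obtain ⟨S, ρ, hS, hρ⟩ := hAln L hL
    obtain ⟨E, φ, K, hφ, hφK⟩ := hPhi pfa T S hT.toAT hS
    obtain ⟨X, hXT, hXc, hXK⟩ := hMlm pfa T hT K
    obtain ⟨X', hX'T, hX', hX'm, -⟩ := hXst T X hT.toAT hXT hXc
    obtain ⟨E', ψ, hψ, hψL⟩ := hPsi pfa T X' hT hX' hX'T
    -- the chain of choices
    have h1 : ∀ a : A, ∃ u u' : Node, u ∈ T ∧ u.ht ∈ E' ∧ z a ≤ u ∧ u' ∈ X' ∧ ψ u ≤ u' ∧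
        u'.ht ∈ E := by
      intro a
      obtain ⟨δ, hδ, hδ'⟩ := hψ.unb (z a).ht
      obtain ⟨u, hu, hu', hu''⟩ := hT.ext (z a) (hZT (hz a)) δ hδ'.le
      have h2 := hψ.mem u hu (hu''.symm ▸ hδ)
      obtain ⟨ε, hε, hε'⟩ := hφ.unb (ψ u).ht
      obtain ⟨u', hu1, hu2, hu3⟩ := hX'.ext (ψ u) h2.1 ε hε'.le
      exact ⟨u, u', hu, hu''.symm ▸ hδ, hu', hu1, hu2, hu3.symm ▸ hε⟩
    choose u u' hu using h1
    have hmem : ∀ a, φ (u' a) ∈ S := fun a =>
      (hφ.mem (u' a) (hX'T (hu a).2.2.2.1) (hu a).2.2.2.2.2).1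
    have h2 : ∀ a b : A, a < b → ∃ w, w ∈ mts X ∧ Mt w (u' a) (u' b) ∧ Lx (u' a) (u' b) := by
      intro a b hab
      have h3 := (hzlt a b hab).mono (hu a).2.2.1 (hu b).2.2.1
      have h4 := hψL (u a) (hu a).1 (u b) (hu b).1 (hu a).2.1 (hu b).2.1 h3
      have h5 := h4.mono (hu a).2.2.2.2.1 (hu b).2.2.2.2.1
      obtain ⟨w, hw⟩ := h5.inc.exists_mt
      exact ⟨w, hX'm ⟨_, (hu a).2.2.2.1, _, (hu b).2.2.2.1, hw⟩, hw, h5⟩
    rcases hXK with hK | hK
    · left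
      refine ⟨OrderEmbedding.ofStrictMono (fun a => ρ (φ (u' a))) (fun a b hab => ?_)⟩
      obtain ⟨w, h3, h4, h5⟩ := h2 a b hab
      exact hρ _ (hmem a) _ (hmem b) ((hφK _ (hX'T (hu a).2.2.2.1) _ (hX'T (hu b).2.2.2.1)
        (hu a).2.2.2.2.2 (hu b).2.2.2.2.2 w h4 h5).1 (hK w h3))
    · right
      refine ⟨OrderEmbedding.ofStrictMono (fun a => ρ (φ (u' (OrderDual.ofDual a))))
        (fun a b hab => ?_)⟩
      have hab' : OrderDual.ofDual b < OrderDual.ofDual a := hab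
      obtain ⟨w, h3, h4, h5⟩ := h2 _ _ hab'
      exact hρ _ (hmem _) _ (hmem _) ((hφK _ (hX'T (hu _).2.2.2.1) _ (hX'T (hu _).2.2.2.1)
        (hu _).2.2.2.2.2 (hu _).2.2.2.2.2 w h4 h5).2 (hK w h3))

end Pool.Agent.MOO.H69
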