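import Mathlib
import Pool.Agent.Helper58_MOO.Stmts

/-!
Module ALN of the MOO project: the tree of an Aronszajn line.
-/

open Cardinal
open Pool.Agent.Helper69_LOTS

namespace Pool.Agent.MOO.H69

open Pool.Agent.MOO Node

variable {L : Type} [LinearOrder L]

/-- The points of `L` in the position prescribed by `s` with respect to the points `ℓ ξ`,
`ξ < ht s`. -/
def cut (l : Om → L) (s : Node) : Set L :=
  {x | ∀ ξ, ξ < s.ht → x ≠ l ξ ∧ (s.val ξ = true ↔ l ξ < x)}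

/-- The node of height `δ` describing the position of `x`. -/
noncomputable def nd (l : Om → L) (x : L) (δ : Om) : Node where
  ht := δ
  val := fun ξ => if ξ < δ then decide (l ξ < x) else false
  supp := fun ξ hξ => by rw [if_neg (not_lt.2 hξ)]

variable {l : Om → L}

theorem nd_val {x : L} {δ ξ : Om} (h : ξ < δ) : (nd l x δ).val ξ = decide (l ξ < x) := by
  change (if ξ < δ then _ else _) = _
  rw [if_pos h]

theorem cut_anti {s t : Node} (h : s ≤ t) : cut l t ⊆ cut l s := by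
  intro x hx ξ hξ
  rw [h.2 ξ hξ]
  exact hx ξ (hξ.trans_le h.1)

theorem mem_cut_nd {x : L} {δ : Om} (h : ∀ ξ, ξ < δ → x ≠ l ξ) : x ∈ cut l (nd l x δ) := by
  intro ξ hξ
  have hξ' : ξ < δ := hξ
  refine ⟨h ξ hξ', ?_⟩
  rw [nd_val hξ', decide_eq_true_iff]

theorem le_nd {x : L} {s : Node} {δ : Om} (hx : x ∈ cut l s) (h : s.ht ≤ δ) : s ≤ nd l x δ := by
  refine ⟨h, fun ξ hξ => ?_⟩
  rw [nd_val (hξ.trans_le h)]
  have h1 := (hx ξ hξ).2
  by_cases h2 : l ξ < x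
  · rw [h1.2 h2, decide_eq_true h2]
  · have h3 : s.val ξ = false := by
      cases h4 : s.val ξ
      · rfl
      · exact absurd (h1.1 h4) h2
    rw [h3, decide_eq_false h2]

theorem lt_of_lx {s t : Node} (h : Lx s t) {x y : L} (hx : x ∈ cut l s) (hy : y ∈ cut l t) :
    ∃ ξ, ξ < s.ht ∧ ξ < t.ht ∧ x < l ξ ∧ l ξ < y := by
  obtain ⟨w, hw, h1⟩ := h
  have h2 := hw.val_true h1
  refine ⟨w.ht, hw.2.2.1, hw.2.2.2.1, ?_, ((hy _ hw.2.2.2.1).2).1 h2⟩
  obtain ⟨h3, h4⟩ := hx _ hw.2.2.1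
  refine lt_of_le_of_ne (not_lt.1 (fun h5 => ?_)) h3
  rw [h4.2 h5] at h1
  exact absurd h1 (by decide)

/-- There are only countably many nonempty cuts at each level. -/
theorem lev_countable (hr : ∀ Y : Set L, ¬ Y.Countable → ¬ RealType Y) (δ : Om) :
    {s : Node | (cut l s).Nonempty ∧ s.ht = δ}.Countable := by
  classical
  by_contra hcon
  let 𝒜 : Set Node := {s : Node | (cut l s).Nonempty ∧ s.ht = δ}
  have h1 : ∀ s : 𝒜, ∃ x, x ∈ cut l s.1 := fun s => s.2.1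
  choose f hf using h1
  have hinj : Function.Injective f := by
    intro s t hst
    by_contra hne
    have h2 : Inc s.1 t.1 := inc_of_ht_eq (s.2.2.trans t.2.2.symm) (fun h => hne (Subtype.ext h))
    rcases h2.lx_or with h3 | h3
    · obtain ⟨ξ, -, -, h4, h5⟩ := lt_of_lx h3 (hf s) (hf t)
      exact absurd hst (h4.trans h5).ne
    · obtain ⟨ξ, -, -, h4, h5⟩ := lt_of_lx h3 (hf t) (hf s)
      exact absurd hst (h4.trans h5).ne'
  have hunc : ¬ (Set.range f ∪ l '' Set.Iio δ).Countable := by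
    intro hc
    have h2 : (Set.range f).Countable := hc.mono Set.subset_union_left
    apply hcon
    have h3 : Countable (Set.range f) := h2
    have h4 : Function.Injective (fun s : 𝒜 => (⟨f s, s, rfl⟩ : Set.range f)) := fun s t hst =>
      hinj (congrArg (fun z : Set.range f => z.1) hst)
    exact Set.countable_coe_iff.1 h4.countable
  refine hr _ hunc ?_
  refine RealType.of_dense (D := {y | y.1 ∈ l '' Set.Iio δ}) ?_ ?_
  · refine Set.countable_of_injective_of_countable_image (f := Subtype.val)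
      (fun x _ y _ h => Subtype.ext h) (((Om_Iio_countable δ).image l).mono ?_)
    rintro _ ⟨x, hx, rfl⟩
    exact hx
  · rintro ⟨x, hx⟩ ⟨y, hy⟩ hxy
    have hxy' : x < y := hxy
    rcases hx with hx | hx
    · rcases hy with hy | hy
      · obtain ⟨s, rfl⟩ := hx
        obtain ⟨t, rfl⟩ := hy
        have hne : s ≠ t := fun h => absurd (congrArg f h) hxy'.ne
        have h2 : Inc s.1 t.1 :=
          inc_of_ht_eq (s.2.2.trans t.2.2.symm) (fun h => hne (Subtype.ext h))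
        rcases h2.lx_or with h3 | h3
        · obtain ⟨ξ, h6, -, h4, h5⟩ := lt_of_lx h3 (hf s) (hf t)
          rw [s.2.2] at h6
          exact ⟨⟨l ξ, Or.inr ⟨ξ, h6, rfl⟩⟩, ⟨ξ, h6, rfl⟩, h4.le, h5.le⟩
        · obtain ⟨ξ, -, -, h4, h5⟩ := lt_of_lx h3 (hf t) (hf s)
          exact absurd (h4.trans h5) (not_lt.2 hxy'.le)
      · exact ⟨⟨y, Or.inr hy⟩, hy, hxy'.le, le_rfl⟩
    · exact ⟨⟨x, Or.inr hx⟩, hx, le_rfl, hxy'.le⟩

theorem no_branch (hl : Function.Surjective l) (h1 : IsEmpty (Om ↪o L))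
    (h2 : IsEmpty (Omᵒᵈ ↪o L)) (b : Om → Bool) (hb : ∀ δ, (cut l (ofBr b δ)).Nonempty) : False := by
  classical
  have hval : ∀ ξ δ, ξ < δ → (ofBr b δ).val ξ = b ξ := by
    intro ξ δ h
    change (if ξ < δ then b ξ else false) = b ξ
    rw [if_pos h]
  have key : ∀ x δ, x ∈ cut l (ofBr b δ) → ∀ ξ, ξ < δ →
      (b ξ = true → l ξ < x) ∧ (b ξ = false → x < l ξ) := by
    intro x δ hx ξ hξ
    obtain ⟨h3, h4⟩ := hx ξ hξ
    rw [hval ξ δ hξ] at h4
    refine ⟨h4.1, fun h5 => lt_of_le_of_ne (not_lt.1 (fun h6 => ?_)) h3⟩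
    rw [h4.2 h6] at h5
    exact absurd h5 (by decide)
  have hA : ∃ D : Set L, D.Countable ∧ ∀ ξ, b ξ = true → ∃ d ∈ D, (∃ η, b η = true ∧ d = l η) ∧
      l ξ ≤ d := by
    by_contra hcon
    push Not at hcon
    obtain ⟨s, hs⟩ := exists_rec (β := L)
      (R := fun D x => (∃ ξ, b ξ = true ∧ x = l ξ) ∧
        ∀ d ∈ D, (∃ ξ, b ξ = true ∧ d = l ξ) → d < x)
      (fun D hD => by
        obtain ⟨ξ, h3, h4⟩ := hcon D hD
        exact ⟨l ξ, ⟨ξ, h3, rfl⟩, fun d hd h5 => h4 d hd h5⟩)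
    refine h1.elim (OrderEmbedding.ofStrictMono s (fun α β hαβ => ?_))
    exact (hs β).2 (s α) ⟨α, hαβ, rfl⟩ (hs α).1
  have hB : ∃ D : Set L, D.Countable ∧ ∀ ξ, b ξ = false → ∃ d ∈ D, (∃ η, b η = false ∧ d = l η) ∧
      d ≤ l ξ := by
    by_contra hcon
    push Not at hcon
    obtain ⟨s, hs⟩ := exists_rec (β := L)
      (R := fun D x => (∃ ξ, b ξ = false ∧ x = l ξ) ∧
        ∀ d ∈ D, (∃ ξ, b ξ = false ∧ d = l ξ) → x < d)
      (fun D hD => by
        obtain ⟨ξ, h3, h4⟩ := hcon D hD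
        exact ⟨l ξ, ⟨ξ, h3, rfl⟩, fun d hd h5 => h4 d hd h5⟩)
    refine h2.elim (OrderEmbedding.ofStrictMono (fun α => s (OrderDual.ofDual α))
      (fun α β hαβ => ?_))
    have h3 : OrderDual.ofDual β < OrderDual.ofDual α := hαβ
    exact (hs _).2 _ ⟨_, h3, rfl⟩ (hs _).1
  obtain ⟨D, hD, hD'⟩ := hA
  obtain ⟨D₂, hD₂, hD₂'⟩ := hB
  have hlinv : ∃ g : L → Om, ∀ x, l (g x) = x := ⟨Function.surjInv hl, Function.surjInv_eq hl⟩
  obtain ⟨g, hg⟩ := hlinv
  -- a bound for the indices of the points of `D` and `D₂`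
  have hI : ∀ x : L, ∃ β : Om, ∀ c : Bool, (∃ η, b η = c ∧ x = l η) →
      ∃ η, η < β ∧ b η = c ∧ x = l η := by
    intro x
    have h3 : ∀ c : Bool, ∃ β : Om, (∃ η, b η = c ∧ x = l η) →
        ∃ η, η < β ∧ b η = c ∧ x = l η := by
      intro c
      by_cases h4 : ∃ η, b η = c ∧ x = l η
      · obtain ⟨η, h5⟩ := h4
        obtain ⟨β, hβ⟩ := Om_exists_gt η
        exact ⟨β, fun _ => ⟨η, hβ, h5⟩⟩
      · exact ⟨Classical.arbitrary Om, fun h5 => absurd h5 h4⟩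
    obtain ⟨β₁, h4⟩ := h3 true
    obtain ⟨β₂, h5⟩ := h3 false
    refine ⟨max β₁ β₂, fun c hc => ?_⟩
    cases c
    · obtain ⟨η, h6, h7⟩ := h5 hc
      exact ⟨η, h6.trans_le (le_max_right _ _), h7⟩
    · obtain ⟨η, h6, h7⟩ := h4 hc
      exact ⟨η, h6.trans_le (le_max_left _ _), h7⟩
  choose β hβ using hI
  obtain ⟨δ, hδ⟩ := Om_bdd ((hD.union hD₂).image β)
  obtain ⟨x, hx⟩ := hb δ
  obtain ⟨ξ, rfl⟩ := hl x
  cases h3 : b ξ
  · obtain ⟨d, hd, h4, h5⟩ := hD₂' ξ h3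
    obtain ⟨η, h6, h7, h8⟩ := hβ d false h4
    have h9 := (key _ δ hx η (h6.trans (hδ _ ⟨d, Or.inr hd, rfl⟩))).2 h7
    rw [← h8] at h9
    exact absurd h5 (not_le.2 h9)
  · obtain ⟨d, hd, h4, h5⟩ := hD' ξ h3
    obtain ⟨η, h6, h7, h8⟩ := hβ d true h4
    have h9 := (key _ δ hx η (h6.trans (hδ _ ⟨d, Or.inl hd, rfl⟩))).1 h7
    rw [← h8] at h9
    exact absurd h5 (not_le.2 h9)

/-- ALN. -/
theorem aln : AlnStmt := by
  classical
  intro L _ hL
  obtain ⟨⟨l, hl⟩, h1, h2, hr⟩ := hL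
  have hne : Nonempty L := ⟨l (Classical.arbitrary Om)⟩
  have hsub : ∀ s : Node, ¬ (cut l s).Countable → (cut l s).Nonempty := by
    intro s hs
    rw [Set.nonempty_iff_ne_empty]
    intro h
    rw [h] at hs
    exact hs Set.countable_empty
  refine ⟨{s | ¬ (cut l s).Countable}, fun s => Classical.epsilon (fun x => x ∈ cut l s),
    ⟨?_, ?_, ?_, ?_, ?_⟩, ?_⟩
  · intro s hs ξ hc
    exact hs (hc.mono (cut_anti (res_le s ξ)))
  · intro δ
    refine (lev_countable (l := l) hr δ).mono ?_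
    rintro s ⟨hs, h3⟩
    exact ⟨hsub s hs, h3⟩
  · intro s hs δ hδ
    by_contra hcon
    push Not at hcon
    apply hs
    have h3 : cut l s ⊆ (l '' Set.Iio δ) ∪
        ⋃ t ∈ {t : Node | (cut l t).Nonempty ∧ t.ht = δ ∧ s ≤ t}, cut l t := by
      intro x hx
      by_cases h4 : x ∈ l '' Set.Iio δ
      · exact Or.inl h4
      · right
        have h5 : x ∈ cut l (nd l x δ) := mem_cut_nd (fun ξ hξ h6 => h4 ⟨ξ, hξ, h6.symm⟩)
        exact Set.mem_biUnion (show nd l x δ ∈ {t : Node | (cut l t).Nonempty ∧ t.ht = δ ∧ s ≤ t}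
          from ⟨⟨x, h5⟩, rfl, le_nd hx hδ⟩) h5
    refine Set.Countable.mono h3 (((Om_Iio_countable δ).image l).union ?_)
    refine Set.Countable.biUnion ((lev_countable (l := l) hr δ).mono ?_) ?_
    · rintro t ⟨h4, h5, -⟩
      exact ⟨h4, h5⟩
    · rintro t ⟨h4, h5, h6⟩
      by_contra h7
      exact hcon t h7 h6 h5
  · obtain ⟨o, -, ho⟩ := Om_least (p := fun _ => True) ⟨Classical.arbitrary Om, trivial⟩
    refine ⟨⟨o, fun _ => false, fun _ _ => rfl⟩, fun hc => ?_⟩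
    have h3 : cut l ⟨o, fun _ => false, fun _ _ => rfl⟩ = Set.univ := by
      ext x
      simp only [Set.mem_univ, iff_true]
      intro ξ hξ
      exact absurd trivial (ho ξ hξ)
    rw [h3, Set.countable_univ_iff] at hc
    exact not_countable (α := Om) (hl.1.countable)
  · rintro ⟨b, hb⟩
    exact no_branch hl.2 h1 h2 b (fun δ => hsub _ (hb δ))
  · intro s hs t ht hst
    have h3 : Classical.epsilon (fun x => x ∈ cut l s) ∈ cut l s :=
      Classical.epsilon_spec (p := fun x => x ∈ cut l s) (hsub s hs)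
    have h4 : Classical.epsilon (fun x => x ∈ cut l t) ∈ cut l t :=
      Classical.epsilon_spec (p := fun x => x ∈ cut l t) (hsub t ht)
    obtain ⟨ξ, -, -, h5, h6⟩ := lt_of_lx hst h3 h4
    exact h5.trans h6

end Pool.Agent.MOO.H69
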