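import Mathlib
import Pool.Agent.Helper58_MOO.Stmts
import Pool.Agent.Helper69_LOTS.Main

/-!
Modules FIV and FIN of the MOO project: the five element basis and the six element basis.
-/

open Cardinal
open Pool.Agent.Helper69_LOTS

namespace Pool.Agent.MOO.H69

open Pool.Agent.MOO Node

/-- Each uncountable type contains a set of size `ℵ₁`. -/
theorem exists_set_aleph_one (L : Type) [hL : Uncountable L] : ∃ X : Set L, #X = ℵ₁ := by
  have h1 : ℵ₁ ≤ #L := by
    rw [← Cardinal.succ_aleph0]
    exact Order.succ_le_of_lt (Cardinal.aleph0_lt_mk_iff.2 hL)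
  exact Cardinal.le_mk_iff_exists_set.1 h1

theorem uncountable_of_mk {X : Type} (h : #X = ℵ₁) : Uncountable X := by
  rw [← Cardinal.aleph0_lt_mk_iff, h]
  exact Cardinal.aleph0_lt_aleph_one

/-- The five orders. -/
def five (X : Set ℝ) (A : Type) : Fin 5 → Type
  | 0 => Om
  | 1 => Omᵒᵈ
  | 2 => X
  | 3 => A
  | 4 => Aᵒᵈ

noncomputable instance five.inst (X : Set ℝ) (A : Type) [LinearOrder A] :
    ∀ i, LinearOrder (five X A i)
  | 0 => inferInstanceAs (LinearOrder Om)
  | 1 => inferInstanceAs (LinearOrder Omᵒᵈ)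
  | 2 => inferInstanceAs (LinearOrder X)
  | 3 => inferInstanceAs (LinearOrder A)
  | 4 => inferInstanceAs (LinearOrder Aᵒᵈ)

/-- FIV. -/
theorem fiv (hAem : AemStmt) (hRel : RelStmt) : FivStmt := by
  classical
  intro pfa
  obtain ⟨A, instA, hA, hAL⟩ := hAem pfa
  have hR : Uncountable ℝ := by
    rw [← Cardinal.aleph0_lt_mk_iff, Cardinal.mk_real]
    exact Cardinal.aleph0_lt_continuum
  obtain ⟨X, hX⟩ := exists_set_aleph_one ℝ
  refine ⟨five X A, five.inst X A, ?_, ?_⟩
  · intro i
    match i with
    | 0 => exact inferInstanceAs (Uncountable Om)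
    | 1 => exact inferInstanceAs (Uncountable Om)
    | 2 => exact uncountable_of_mk hX
    | 3 => exact hA
    | 4 => exact hA
  · intro L _ hL
    by_cases h0 : Nonempty (Om ↪o L)
    · exact ⟨0, h0⟩
    by_cases h1 : Nonempty (Omᵒᵈ ↪o L)
    · exact ⟨1, h1⟩
    by_cases h2 : ∃ Y : Set L, ¬ Y.Countable ∧ RealType Y
    · obtain ⟨Y, hY, ⟨e⟩⟩ := h2
      refine ⟨2, ?_⟩
      have h3 : ¬ (Set.range e).Countable := by
        intro hc
        have h4 : Countable (Set.range e) := hc
        apply hY
        have h5 : Function.Injective (fun y : Y => (⟨e y, y, rfl⟩ : Set.range e)) :=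
          fun x y hxy => e.injective (congrArg (fun z : Set.range e => z.1) hxy)
        exact Set.countable_coe_iff.1 h5.countable
      obtain ⟨f⟩ := hRel pfa X (Set.range e) hX h3
      have h6 : ∀ x : X, ∃ y : Y, e y = (f x).1 := fun x => (f x).2
      choose g hg using h6
      have h8 : Nonempty (X ↪o L) := by
        refine ⟨OrderEmbedding.ofStrictMono (fun x : X => (g x).1) (fun a b hab => ?_)⟩
        have h7 : e (g a) < e (g b) := by
          rw [hg, hg]
          exact f.lt_iff_lt.2 hab
        exact e.lt_iff_lt.1 h7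
      exact h8
    · push Not at h2
      obtain ⟨M, hM⟩ := exists_set_aleph_one L
      have hline : ALine M := by
        refine ⟨?_, ?_, ?_, ?_⟩
        · have h3 : #Om = #M := mk_Om.trans hM.symm
          obtain ⟨e⟩ := Cardinal.eq.1 h3
          exact ⟨e, e.bijective⟩
        · rw [← not_nonempty_iff]
          rintro ⟨e⟩
          exact h0 ⟨e.trans (OrderEmbedding.subtype _)⟩
        · rw [← not_nonempty_iff]
          rintro ⟨e⟩
          exact h1 ⟨e.trans (OrderEmbedding.subtype _)⟩
        · intro Y hY hr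
          have h3 : ¬ (Subtype.val '' Y : Set L).Countable := by
            intro hc
            exact hY (Set.countable_of_injective_of_countable_image (f := Subtype.val)
              (fun x _ y _ h => Subtype.ext h) hc)
          refine h2 _ h3 (hr.of_embedding ?_)
          have h4 : ∀ x : (Subtype.val '' Y : Set L), ∃ y : Y, y.1.1 = x.1 := by
            rintro ⟨_, y, hy, rfl⟩
            exact ⟨⟨y, hy⟩, rfl⟩
          choose g hg using h4
          refine OrderEmbedding.ofStrictMono g (fun a b hab => ?_)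
          have h5 : (g a).1.1 < (g b).1.1 := by
            rw [hg, hg]
            exact hab
          exact h5
      rcases hAL M hline with ⟨⟨e⟩⟩ | ⟨⟨e⟩⟩
      · exact ⟨3, ⟨e.trans (OrderEmbedding.subtype _)⟩⟩
      · exact ⟨4, ⟨e.trans (OrderEmbedding.subtype _)⟩⟩

/-- FIN. -/
theorem fin (h : FivStmt) : FinStmt := fun pfa => five_gives_six (h pfa)

end Pool.Agent.MOO.H69
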